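import Pool.Agent.X213.SphereIII
import Pool.Agent.X213.SphereNum

/-!
# MP_0be93d_co: uncountable subsets of the 2-sphere without the precolouring extension property

The existence of an uncountable `W ⊆ S²` with trivial pointwise stabilizer such that the
precolouring extension property fails is equivalent, both for `O(3)` and for `SO(3)`, to the
cardinal equality `2^ℵ₁ = 2^ℵ₀`; in particular both questions are independent of ZFC.
-/

open Matrix Cardinal

namespace Pool.Agent.Results.MP_0be93d_co.IffPowersEqual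

open Pool.Agent.X213.Sphere

theorem iff_aux {G : Set M3} (h1 : SO3 ⊆ G) (h2 : G ⊆ O3) :
    (∃ W : Set S2, ¬ W.Countable ∧ TrivialStab G W ∧ ¬ PEP G W) ↔
      (2 : Cardinal.{0}) ^ (ℵ₁ : Cardinal.{0}) = 2 ^ (ℵ₀ : Cardinal.{0}) := by
  classical
  have hnum := distNum_eq h1 h2
  constructor
  · rintro ⟨W, hW, hst, hP⟩
    rw [Cardinal.two_power_aleph0]
    by_contra hne
    have hlt : Cardinal.continuum < (2 : Cardinal.{0}) ^ (ℵ₁ : Cardinal.{0}) := by
      refine lt_of_le_of_ne ?_ (Ne.symm hne)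
      rw [← Cardinal.two_power_aleph0]
      exact Cardinal.power_le_power_left two_ne_zero (Cardinal.aleph0_le_aleph 1)
    apply hP
    unfold PEP
    rw [hnum]
    intro c
    obtain ⟨c', hc', hd⟩ := pep_of_lt h2 hW hst hlt
      (fun x => if h : x ∉ W then c ⟨x, h⟩ else 0)
    refine ⟨c', fun x => ?_, hd⟩
    rw [hc' x.1 x.2]
    exact dif_pos x.2
  · intro h
    rw [Cardinal.two_power_aleph0] at h
    obtain ⟨W, hW, hst, c, hc⟩ := exists_bad h
    refine ⟨W, hW, fun A hA => hst A (h2 hA), ?_⟩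
    unfold PEP
    rw [hnum]
    intro hP
    obtain ⟨c', hc', hd⟩ := hP (fun x => c x.1)
    obtain ⟨A, hA, hA1, hinv⟩ := hc c' (fun y hy => hc' ⟨y, hy⟩)
    exact hA1 (hd A (h1 hA) hinv)

/-- Both distinguishing numbers are `2`, and for `O(3)` as well as for `SO(3)` an uncountable
`W ⊆ S²` with trivial pointwise stabilizer for which the precolouring extension property
fails exists if and only if `2^ℵ₁ = 2^ℵ₀`. -/
theorem result :
    distNum O3 = 2 ∧ distNum SO3 = 2 ∧
    ((∃ W : Set S2, ¬ W.Countable ∧ TrivialStab O3 W ∧ ¬ PEP O3 W) ↔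
      (2 : Cardinal.{0}) ^ (ℵ₁ : Cardinal.{0}) = 2 ^ (ℵ₀ : Cardinal.{0})) ∧
    ((∃ W : Set S2, ¬ W.Countable ∧ TrivialStab SO3 W ∧ ¬ PEP SO3 W) ↔
      (2 : Cardinal.{0}) ^ (ℵ₁ : Cardinal.{0}) = 2 ^ (ℵ₀ : Cardinal.{0})) :=
  ⟨distNum_eq SO3_subset subset_rfl, distNum_eq subset_rfl SO3_subset,
    iff_aux SO3_subset subset_rfl, iff_aux subset_rfl SO3_subset⟩

end Pool.Agent.Results.MP_0be93d_co.IffPowersEqual
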